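import Pool.Agent.Work.MP_a03d92_mp.PartB.Coh
import Pool.Agent.Work.MP_a03d92_mp.PartB.OfCoh
import Pool.Agent.Work.MP_a03d92_mp.System

/-!
# MP_a03d92_mp: a stable non-periodic ground state for a finite-range lattice gas on the plane lattice

The statement is written with interactions in the usual sense: for every finite set `Λ` of sites a
real function of the restriction of the configuration to `Λ`.
-/

set_option autoImplicit false

open MeasureTheory

namespace Pool.Agent.Results.MP_a03d92_mp.StableGroundState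

/-- The sites of the square lattice. -/
abbrev Site := Fin 2 → ℤ

/-- Configurations with spins in `Fin n`. -/
abbrev Config (n : ℕ) := Site → Fin n

/-- An interaction: for each finite `Λ`, a real function of the restriction to `Λ`. -/
abbrev Interaction (n : ℕ) := (Λ : Finset Site) → (Λ → Fin n) → ℝ

/-- The translate `T_a X`. -/
def translate {n : ℕ} (a : Site) (X : Config n) : Config n := fun i => X (i - a)

/-- The value `Φ_Λ(X)`. -/
def value {n : ℕ} (Φ : Interaction n) (Λ : Finset Site) (X : Config n) : ℝ := Φ Λ fun i => X i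

/-- Translation invariance of an interaction. -/
def Invariant {n : ℕ} (Φ : Interaction n) : Prop :=
  ∀ (a : Site) (Λ : Finset Site) (X : Config n),
    value Φ (Λ.image fun i => i + a) (translate a X) = value Φ Λ X

/-- The interaction vanishes on sets of diameter (in the sup-norm) larger than `R`. -/
def Range {n : ℕ} (Φ : Interaction n) (R : ℝ) : Prop :=
  ∀ Λ : Finset Site, R < Metric.diam (Λ : Set Site) → ∀ X : Config n, value Φ Λ X = 0

/-- Finite-range translation-invariant interactions. -/
def Admissible {n : ℕ} (Φ : Interaction n) : Prop := Invariant Φ ∧ ∃ R : ℝ, Range Φ R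

/-- The relative Hamiltonian `H(Y|X)`. -/
noncomputable def relH {n : ℕ} (Φ : Interaction n) (Y X : Config n) : ℝ :=
  ∑ᶠ Λ : Finset Site, (value Φ Λ Y - value Φ Λ X)

/-- Ground-state configurations. -/
def IsGround {n : ℕ} (Φ : Interaction n) (X : Config n) : Prop :=
  ∀ Y : Config n, {i | Y i ≠ X i}.Finite → 0 ≤ relH Φ Y X

/-- Ground-state measures: translation-invariant probability measures carried by ground-state
configurations. -/
def IsGroundMeasure {n : ℕ} (Φ : Interaction n) (μ : Measure (Config n)) : Prop :=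
  IsProbabilityMeasure μ ∧ (∀ a : Site, μ.map (translate a) = μ) ∧ ∀ᵐ X ∂μ, IsGround Φ X

open Pool.Agent.MPa03d92 in
theorem adm2_of {n : ℕ} {Φ : Interaction n} (h : Admissible Φ) : Adm2 n (value Φ) := by
  obtain ⟨h1, R, hR⟩ := h
  refine ⟨?_, fun Λ X a => h1 a Λ X, ?_⟩
  · intro Λ X Y hXY
    unfold value
    congr 1
    funext i
    exact hXY i i.2
  · obtain ⟨r, hr⟩ := exists_nat_gt R
    refine ⟨r, ?_⟩
    rintro Λ ⟨i, hi, j, hj, k, hk⟩ X
    apply hR
    have h2 : dist i j ≤ Metric.diam (Λ : Set Site) :=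
      Metric.dist_le_diam_of_mem Λ.finite_toSet.isBounded (Finset.mem_coe.2 hi)
        (Finset.mem_coe.2 hj)
    have h3 : dist (i k) (j k) ≤ dist i j := dist_le_pi_dist i j k
    have h4 : (r : ℝ) < dist (i k) (j k) := by
      rw [Int.dist_eq]
      exact_mod_cast hk
    linarith

open Pool.Agent.MPa03d92 in
/-- the interaction of a pair of matching rules -/
noncomputable def inter {n : ℕ} (H V : Fin n → Fin n → Prop) (x0 : Config n) : Interaction n :=
  fun Λ x => Phi0 H V Λ fun i => if h : i ∈ Λ then x ⟨i, h⟩ else x0 i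

open Pool.Agent.MPa03d92 in
theorem value_inter {n : ℕ} (H V : Fin n → Fin n → Prop) (x0 : Config n) :
    value (inter H V x0) = Phi0 H V := by
  funext Λ X
  unfold value inter
  apply (adm_Phi0 H V).1
  intro i hi
  simp [hi]

open Pool.Agent.MPa03d92 in
theorem range_inter {n : ℕ} (H V : Fin n → Fin n → Prop) (x0 : Config n) :
    Range (inter H V x0) 1 := by
  intro Λ hΛ X
  rw [value_inter]
  apply Phi0_not
  rintro ⟨z, rfl⟩
  revert hΛ
  rw [imp_false, not_lt]
  apply Metric.diam_le_of_forall_dist_le zero_le_one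
  intro i hi j hj
  rw [dist_pi_le_iff zero_le_one]
  intro k
  rw [Finset.mem_coe, mem_tri] at hi hj
  rw [Int.dist_eq]
  fin_cases k <;> rcases hi with rfl | rfl | rfl <;> rcases hj with rfl | rfl | rfl <;>
    simp [e0, e1]

open Pool.Agent.MPa03d92 in
/-- On the square lattice there are a finite spin set and a translation-invariant interaction with
values in `{0, 1}`, of range one and not frustrated, with exactly one ground-state measure `μ`;
`μ` gives measure zero to the periodic configurations, and for every finite-range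
translation-invariant interaction `Φ'` it stays a ground-state measure of `Φ + ε Φ'` for all
sufficiently small `ε ≥ 0`. -/
theorem result :
    ∃ (n : ℕ) (Φ : Interaction n),
      Invariant Φ ∧ Range Φ 1 ∧
      (∀ Λ X, value Φ Λ X = 0 ∨ value Φ Λ X = 1) ∧
      (∃ X, ∀ Λ, value Φ Λ X = 0) ∧
      (∀ X, (∀ Λ, value Φ Λ X = 0) → ∀ a : Site, a ≠ 0 → translate a X ≠ X) ∧
      ∃ μ : Measure (Config n),
        IsGroundMeasure Φ μ ∧
        (∀ ν : Measure (Config n), IsGroundMeasure Φ ν → ν = μ) ∧
        (∀ᵐ X ∂μ, ∀ Λ, value Φ Λ X = 0) ∧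
        μ {X | ∃ a : Site, a ≠ 0 ∧ translate a X = X} = 0 ∧
        ∀ Φ' : Interaction n, Admissible Φ' →
          ∃ ε₀ : ℝ, 0 < ε₀ ∧ ∀ ε : ℝ, 0 ≤ ε → ε < ε₀ → IsGroundMeasure (Φ + ε • Φ') μ := by
  obtain ⟨n, H, V, ⟨x0, h0⟩, hnp, hcoh⟩ := Pool.Agent.MPa03d92.C.system.coh
  obtain ⟨μ, pμ, iμ, vμ⟩ := exists_inv h0
  have hval := value_inter H V x0
  have hinv : ∀ μ' : Measure (Config n), (∀ a : Site, μ'.map (translate a) = μ') ↔ Inv2 μ' :=
    fun μ' => inv_iff μ'
  have hzero : ∀ X : Config n, (∀ Λ, value (inter H V x0) Λ X = 0) ↔ Valid H V X := by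
    intro X
    rw [hval]
    constructor
    · intro h z
      have h1 := h (tri z)
      rw [Phi0_tri] at h1
      by_contra hcon
      unfold bad0 at h1
      rw [if_neg (by rw [Good_sh, zero_add]; exact hcon)] at h1
      exact one_ne_zero h1
    · intro h Λ
      unfold Phi0
      rw [if_neg]
      rintro ⟨z, -, hz⟩
      exact hz (h z)
  refine ⟨n, inter H V x0, ?_, range_inter H V x0, ?_, ⟨x0, (hzero x0).2 h0⟩, ?_, μ,
    ⟨pμ, (hinv μ).2 iμ, ?_⟩, ?_, ?_, ?_, ?_⟩
  · intro a Λ X
    rw [hval]
    exact (adm_Phi0 H V).2.1 Λ X a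
  · intro Λ X
    rw [hval]
    unfold Phi0
    split_ifs
    · right; rfl
    · left; rfl
  · intro X hX a ha hXa
    have := hnp X ((hzero X).1 hX) (-a) (neg_ne_zero.2 ha)
    apply this
    rw [← congrFun (sub_eq_sh a) X]
    exact hXa
  · filter_upwards [vμ] with X hX Y h
    unfold relH
    rw [hval, ground_of_valid hX Y h]
    positivity
  · rintro ν ⟨pν, hν, gν⟩
    rw [hinv] at hν
    refine unique_inv hcoh pν pμ hν iμ (valid_of_ground h0 hν ?_) vμ
    filter_upwards [gν] with X hX Y h
    have := hX Y h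
    unfold relH at this
    rw [hval] at this
    rw [← inter_Phi0]
    exact this
  · filter_upwards [vμ] with X hX
    exact (hzero X).2 hX
  · refine measure_mono_null ?_ (ae_iff.1 vμ)
    rintro X ⟨a, ha, hXa⟩ hX
    have := hnp X hX (-a) (neg_ne_zero.2 ha)
    apply this
    rw [← congrFun (sub_eq_sh a) X]
    exact hXa
  · intro Φ' hΦ0
    have hΦ' := adm2_of hΦ0
    obtain ⟨f, hf, hfD⟩ := inter_eq_D hΦ'
    obtain ⟨-, C, hC0, hC⟩ := energy (hcoh f hf)
    refine ⟨1 / (C + 1), by positivity, fun ε hε hε' => ⟨pμ, (hinv μ).2 iμ, ?_⟩⟩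
    filter_upwards [vμ] with X hX Y h
    have h1 : relH (inter H V x0 + ε • Φ') Y X = (Bad H V Y).ncard + ε * D f Y X := by
      have h0' : ∀ Λ Z, value (inter H V x0 + ε • Φ') Λ Z = Phi0 H V Λ Z + ε * value Φ' Λ Z := by
        intro Λ Z
        rw [← hval]
        rfl
      unfold relH
      simp only [h0']
      rw [← ground_of_valid hX Y h, ← hfD X Y h, mul_finsum, ← finsum_add_distrib]
      · refine finsum_congr fun Λ => by ring
      · exact supp_finite_inter (adm_Phi0 H V) h
      · refine (supp_finite_inter hΦ' h).subset fun Λ hΛ => ?_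
        rw [Function.mem_support] at hΛ ⊢
        intro h0
        exact hΛ (by rw [h0, mul_zero])
    rw [h1]
    have h2 := hC X Y hX h
    have h3 : -(C * (Bad H V Y).ncard) ≤ D f Y X := (abs_le.1 h2).1
    have h4 : ε * C ≤ 1 := by
      have : ε * (C + 1) < 1 := by rwa [lt_div_iff₀ (by positivity)] at hε'
      nlinarith
    have h5 : (0 : ℝ) ≤ (Bad H V Y).ncard := by positivity
    nlinarith [mul_le_mul_of_nonneg_left h3 hε, mul_le_mul_of_nonneg_right h4 h5]

end Pool.Agent.Results.MP_a03d92_mp.StableGroundState
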